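import Pool.Agent.U643.BSD.Main

/-!
# Where the rank conjecture of Birch and Swinnerton-Dyer over number fields has to be proved

`U` is a connected subset of `ℂ` that contains the half-plane `Re s > 3/2` and the point `1` (for example
`U = ℂ`).  The rank conjecture for `E` over `K` (on `U`) says that the Euler product `L(E/K, s)` has a
meromorphic continuation to `U` with order of vanishing at `s = 1` equal to the rank of `E(K)`.

1. Let `K` be a number field, `M` any finite extension of `K`, and `m`, `n` coprime.  There is a finite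
   Galois extension `L` of `K` that contains `M`, and a finite set `S` of fields between `K` and `L` such
   that for `F ∈ S` the degree `[F : K]` is divisible by `m` or by `n`, the group `Gal(L/F)` is
   hyperelementary (a cyclic normal subgroup of prime power index), and: for EVERY elliptic curve `E` over
   `K`, the rank conjecture for `E` over the fields `F ∈ S` implies the rank conjecture for `E` over `K`
   (including the existence of the continuation).
2. If only the order of vanishing matters one can do with `n ∣ [F : K]`, `n` any number, and with cyclic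
   groups `Gal(L/F)`: then, for every `E`, some power `L(E/K, s)^k` has a continuation of order `k` times
   the rank, `k` not depending on `E`, and if `L(E/K, s)` itself has a continuation to `U`, then the
   rank conjecture holds for `E` over `K`.
3. Let `X` be any property of elliptic curves over number fields that is preserved by extensions of the
   field and that every elliptic curve has over some finite extension: for example, everywhere
   semistable reduction, all the points of order `N` are rational, the field contains a given number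
   field, and all finite combinations of these.  Then the rank conjecture (for all elliptic curves over all
   number fields) is equivalent to the rank conjecture for the `E` over `F` with `m` or `n` dividing `[F : ℚ]`
   and such that `E` has `X` over a Galois extension of `F` with hyperelementary group.
4. For elliptic curves over number fields whose `L`-functions continue, cyclic groups and `n ∣ [F : ℚ]`
   are enough.

The proof.  `L(E/K, s)` and the rank of `E(K)` satisfy the same relations as the permutation
characters of the Galois group (library, `R433/MD` and `R333/BR`: the finitely many other Euler factors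
are controlled for the minimal models over the different fields; the rank by Galois descent), and the
trivial character is an integral combination of the permutation characters of hyperelementary
subgroups.  The new point is that all these subgroups have an index divisible by `m` or by `n`: `L` is chosen to
contain the `q₁ q₂`-th roots of unity for two primes `q₁`, `q₂ ≡ 1` modulo `m n [K : ℚ]`, so that the
Galois group has an abelian quotient whose order is divisible by `m n` times its exponent.
-/

set_option autoImplicit false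

namespace Pool.Agent.Results.MP_ae0bd0_nt.HyperelementaryReduction

open NumberField IsDedekindDomain
open scoped Classical

/-- `U` is connected and contains the half-plane `Re s > 3/2` and `1`. -/
def IsDomainFor (U : Set ℂ) : Prop :=
  IsPreconnected U ∧ (∀ s : ℂ, 3 / 2 < s.re → s ∈ U) ∧ (1 : ℂ) ∈ U

/-- `W v` is, for every finite place `v`, an integral model of `E` with discriminant minimal at
`v`. -/
def MinimalModels {K : Type} [Field K] [NumberField K] (E : WeierstrassCurve K)
    (W : HeightOneSpectrum (𝓞 K) → WeierstrassCurve (𝓞 K)) : Prop :=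
  ∀ v : HeightOneSpectrum (𝓞 K),
    (∃ C : WeierstrassCurve.VariableChange K, C • (W v).map (algebraMap (𝓞 K) K) = E) ∧
    ∀ W' : WeierstrassCurve (𝓞 K),
      (∃ C : WeierstrassCurve.VariableChange K, C • W'.map (algebraMap (𝓞 K) K) = E) →
      ∀ n : ℕ, (W v).Δ ∈ v.asIdeal ^ n → W'.Δ ∈ v.asIdeal ^ n

/-- The Euler factor at `v`, `(1 - a_v Nv^{-s} + Nv^{1-2s})⁻¹` if the reduction at `v` is good and
`(1 - a_v Nv^{-s})⁻¹` if it is bad, where `a_v` is `Nv` minus the number of affine points of the
reduction of `W v`. -/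
noncomputable def localFactor {K : Type} [Field K] [NumberField K]
    (W : HeightOneSpectrum (𝓞 K) → WeierstrassCurve (𝓞 K)) (v : HeightOneSpectrum (𝓞 K))
    (s : ℂ) : ℂ :=
  (1 - ((Ideal.absNorm v.asIdeal : ℂ)
        - (Nat.card {xy : (𝓞 K ⧸ v.asIdeal) × (𝓞 K ⧸ v.asIdeal) //
            ((W v).map (Ideal.Quotient.mk v.asIdeal)).toAffine.Equation xy.1 xy.2} : ℂ))
        * (Ideal.absNorm v.asIdeal : ℂ) ^ (-s)
    + (if (W v).Δ ∈ v.asIdeal then 0 else (Ideal.absNorm v.asIdeal : ℂ))
        * (Ideal.absNorm v.asIdeal : ℂ) ^ (-2 * s))⁻¹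

/-- `E` has minimal models, the group `E(K)` has finite rank, and, for all minimal models, the function
`L(E/K, s) ^ k` has a meromorphic continuation to `U` whose order of vanishing at `s = 1` is `k` times
the rank. -/
def PowerConjecture {K : Type} [Field K] [NumberField K] (k : ℕ) (U : Set ℂ)
    (E : WeierstrassCurve K) : Prop :=
  (∃ W : HeightOneSpectrum (𝓞 K) → WeierstrassCurve (𝓞 K), MinimalModels E W) ∧
  ∃ r : ℕ, Module.rank ℤ E.toAffine.Point = r ∧
    ∀ W : HeightOneSpectrum (𝓞 K) → WeierstrassCurve (𝓞 K), MinimalModels E W →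
      ∃ f : ℂ → ℂ, MeromorphicOn f U ∧
        (∀ s : ℂ, 3 / 2 < s.re → HasProd (fun v => localFactor W v s ^ k) (f s)) ∧
        meromorphicOrderAt f 1 = ((k * r : ℕ) : ℤ)

/-- The rank conjecture for `E` over `K`: `E` has minimal models, the group `E(K)` has finite rank, and
the Euler product `L(E/K, s)` has a meromorphic continuation to `U` whose order of vanishing at `s = 1`
is the rank. -/
def RankConjecture {K : Type} [Field K] [NumberField K] (U : Set ℂ) (E : WeierstrassCurve K) :
    Prop :=
  (∃ W : HeightOneSpectrum (𝓞 K) → WeierstrassCurve (𝓞 K), MinimalModels E W) ∧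
  ∃ r : ℕ, Module.rank ℤ E.toAffine.Point = r ∧
    ∀ W : HeightOneSpectrum (𝓞 K) → WeierstrassCurve (𝓞 K), MinimalModels E W →
      ∃ f : ℂ → ℂ, MeromorphicOn f U ∧
        (∀ s : ℂ, 3 / 2 < s.re → HasProd (fun v => localFactor W v s) (f s)) ∧
        meromorphicOrderAt f 1 = (r : ℤ)

/-- The Euler product `L(E/K, s)` has a meromorphic continuation to `U`. -/
def Continues {K : Type} [Field K] [NumberField K] (U : Set ℂ) (E : WeierstrassCurve K) : Prop :=
  ∀ W : HeightOneSpectrum (𝓞 K) → WeierstrassCurve (𝓞 K), MinimalModels E W →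
    ∃ f : ℂ → ℂ, MeromorphicOn f U ∧
      ∀ s : ℂ, 3 / 2 < s.re → HasProd (fun v => localFactor W v s) (f s)

/-- The group `G` has a cyclic normal subgroup `C` such that every element of `G / C` has `p`-power
order, for some prime `p`. -/
def Hyperelementary (G : Type) [Group G] : Prop :=
  ∃ p : ℕ, p.Prime ∧ ∃ C : Subgroup G, C.Normal ∧ IsCyclic C ∧ ∀ g : G, ∃ k : ℕ, g ^ p ^ k ∈ C

/-- The property `X` of elliptic curves over number fields is preserved by finite extensions of the
field, and every elliptic curve over a number field has it over a finite extension. -/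
def IsPotential (X : ∀ (K : Type) [Field K] [NumberField K], WeierstrassCurve K → Prop) : Prop :=
  (∀ (K F : Type) [Field K] [NumberField K] [Field F] [NumberField F] [Algebra K F]
    (E : WeierstrassCurve K), X K E → X F (E.map (algebraMap K F))) ∧
  ∀ (K : Type) [Field K] [NumberField K] (E : WeierstrassCurve K), E.IsElliptic →
    ∃ (M : Type) (_ : Field M) (_ : NumberField M) (_ : Algebra K M), X M (E.map (algebraMap K M))

section bridge

open Pool.Agent.H341R2.EC (IsModel IsMinAt red aff trc dlt)
open Pool.Agent.R433.MD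
open Pool.Agent.H921R2.TatePole (nm two_le_nm)
open Pool.Agent.U643.BSD

variable {K : Type} [Field K] [NumberField K]

omit [NumberField K] in
theorem isModel_iff (E : WeierstrassCurve K) (W : WeierstrassCurve (𝓞 K)) :
    (∃ C : WeierstrassCurve.VariableChange K, C • W.map (algebraMap (𝓞 K) K) = E) ↔
      IsModel E W := by
  constructor
  · rintro ⟨C, hC⟩
    exact ⟨C⁻¹, by rw [← hC, inv_smul_smul]⟩
  · rintro ⟨C, hC⟩
    exact ⟨C⁻¹, by rw [← hC, inv_smul_smul]⟩

theorem minimalModels_iff (E : WeierstrassCurve K)
    (V : HeightOneSpectrum (𝓞 K) → WeierstrassCurve (𝓞 K)) :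
    MinimalModels E V ↔ ∀ v, IsMinAt E v (V v) := by
  unfold MinimalModels IsMinAt
  simp only [isModel_iff]

theorem factor_eq (V : HeightOneSpectrum (𝓞 K) → WeierstrassCurve (𝓞 K)) (s : ℂ)
    (v : HeightOneSpectrum (𝓞 K)) : localFactor V v s = (lf V s v)⁻¹ := by
  unfold localFactor
  congr 1
  unfold lf trc dlt
  have h0 : ((nm v : ℕ) : ℂ) ≠ 0 := by
    have := two_le_nm v
    exact_mod_cast (by omega : nm v ≠ 0)
  have e1 : Nat.card {xy : (𝓞 K ⧸ v.asIdeal) × (𝓞 K ⧸ v.asIdeal) //
      ((V v).map (Ideal.Quotient.mk v.asIdeal)).toAffine.Equation xy.1 xy.2} =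
      aff (red v (V v)) := by
    unfold aff red
    refine Nat.card_congr (Equiv.subtypeEquivRight fun xy => ?_)
    rw [WeierstrassCurve.Affine.equation_iff]
  have e2 : ((nm v : ℕ) : ℂ) ^ (1 - 2 * s) = ((nm v : ℕ) : ℂ) * ((nm v : ℕ) : ℂ) ^ (-2 * s) := by
    rw [sub_eq_add_neg, Complex.cpow_add _ _ h0, Complex.cpow_one]
    congr 2
    ring
  have e3 : (Ideal.absNorm v.asIdeal : ℂ) = ((nm v : ℕ) : ℂ) := rfl
  rw [e1, e2, e3]
  push_cast
  split_ifs with h
  · ring
  · ring

theorem hasProd_iff {E : WeierstrassCurve K} (hE : E.IsElliptic)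
    {V : HeightOneSpectrum (𝓞 K) → WeierstrassCurve (𝓞 K)} (hV : ∀ v, IsMinAt E v (V v))
    {s : ℂ} (hs : 3 / 2 < s.re) (k : ℕ) (z : ℂ) :
    HasProd (fun v => localFactor V v s ^ k) z ↔ z = LL V s ^ k := by
  have h1 : HasProd (fun v => localFactor V v s ^ k) (LL V s ^ k) := by
    simp only [factor_eq]
    exact hasProd_pow (hasProd_lf E hE V hV hs).1 k
  exact ⟨fun h => h.unique h1, fun h => h ▸ h1⟩

theorem power_iff {E : WeierstrassCurve K} (hE : E.IsElliptic) (k : ℕ) {U : Set ℂ}
    (h1 : (1 : ℂ) ∈ U) : PowerConjecture k U E ↔ RC k U E := by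
  constructor
  · rintro ⟨⟨W, hW⟩, r, hr, h⟩
    obtain ⟨f, hf, hfL, ho⟩ := h W hW
    refine ⟨r, hr, W, (minimalModels_iff E W).1 hW, f, hf, fun s hs => ?_, ?_⟩
    · exact (hasProd_iff hE ((minimalModels_iff E W).1 hW) hs k _).1 (hfL s hs)
    · rw [ho]
      push_cast
      rfl
  · intro h
    obtain ⟨r, hr, hall⟩ := h.all h1 hE
    obtain ⟨V0, hV0⟩ := exists_minimal E hE
    refine ⟨⟨V0, (minimalModels_iff E V0).2 hV0⟩, r, hr, fun W hW => ?_⟩
    have hW' := (minimalModels_iff E W).1 hW
    obtain ⟨f, hf, hfL, ho⟩ := hall W hW'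
    refine ⟨f, hf, fun s hs => (hasProd_iff hE hW' hs k _).2 (hfL s hs), ?_⟩
    rw [ho]
    push_cast
    rfl

theorem rank_iff {E : WeierstrassCurve K} (hE : E.IsElliptic) {U : Set ℂ} (h1 : (1 : ℂ) ∈ U) :
    RankConjecture U E ↔ RC 1 U E := by
  rw [← power_iff hE 1 h1]
  unfold RankConjecture PowerConjecture
  simp only [pow_one, one_mul]

theorem continues_iff {E : WeierstrassCurve K} (hE : E.IsElliptic) (U : Set ℂ) :
    Continues U E ↔ Cont E U 1 := by
  constructor
  · intro h
    obtain ⟨V, hV⟩ := exists_minimal E hE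
    obtain ⟨f, hf, hfL⟩ := h V ((minimalModels_iff E V).2 hV)
    refine ⟨V, hV, f, hf, fun s hs => (hasProd_iff hE hV hs 1 _).1 ?_⟩
    simpa only [pow_one] using hfL s hs
  · rintro ⟨V, hV, Λ, hΛ, hL⟩ W hW
    have hW' := (minimalModels_iff E W).1 hW
    obtain ⟨R, hR, hRL⟩ := models_unique hE W V hW' hV
    have h2 : MeromorphicOn R U := fun x _ => hR x trivial
    refine ⟨fun s => R s * Λ s, h2.fun_mul hΛ, fun s hs => ?_⟩
    have h3 := (hasProd_iff hE hW' hs 1 (R s * Λ s)).2 (by
      rw [hL s hs, pow_one, pow_one, (hRL s hs).2])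
    simpa only [pow_one] using h3

theorem dom_iff (U : Set ℂ) : IsDomainFor U ↔ Dom U :=
  ⟨fun h => ⟨h.1, h.2.1, h.2.2⟩, fun h => ⟨h.conn, h.half, h.one⟩⟩

end bridge

open Pool.Agent.U643.BSD in
/-- **Main theorem.** -/
theorem result :
    -- 1. test fields with hyperelementary groups
    (∀ (K M : Type) [Field K] [NumberField K] [Field M] [NumberField M] [Algebra K M] (m n : ℕ),
      0 < m → 0 < n → Nat.Coprime m n →
      ∃ (L : Type) (_ : Field L) (_ : NumberField L) (_ : Algebra K L),
        IsGalois K L ∧ Nonempty (M →ₐ[K] L) ∧ ∃ S : Finset (IntermediateField K L),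
        (∀ F ∈ S, (m ∣ Module.finrank K F ∨ n ∣ Module.finrank K F) ∧ Hyperelementary Gal(L/F)) ∧
        ∀ E : WeierstrassCurve K, E.IsElliptic → ∀ U : Set ℂ, IsDomainFor U →
          (∀ F ∈ S, RankConjecture U (E.map (algebraMap K F))) → RankConjecture U E) ∧
    -- 2. test fields with cyclic groups
    (∀ (K M : Type) [Field K] [NumberField K] [Field M] [NumberField M] [Algebra K M] (n : ℕ),
      0 < n →
      ∃ (L : Type) (_ : Field L) (_ : NumberField L) (_ : Algebra K L),
        IsGalois K L ∧ Nonempty (M →ₐ[K] L) ∧ ∃ S : Finset (IntermediateField K L),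
        (∀ F ∈ S, n ∣ Module.finrank K F ∧ IsCyclic Gal(L/F)) ∧ ∃ k : ℕ, 0 < k ∧
        ∀ E : WeierstrassCurve K, E.IsElliptic → ∀ U : Set ℂ, IsDomainFor U →
          (∀ F ∈ S, RankConjecture U (E.map (algebraMap K F))) →
            PowerConjecture k U E ∧ (Continues U E → RankConjecture U E)) ∧
    -- 3. the rank conjecture over all number fields
    (∀ X : ∀ (K : Type) [Field K] [NumberField K], WeierstrassCurve K → Prop, IsPotential X →
      ∀ m n : ℕ, 0 < m → 0 < n → Nat.Coprime m n → ∀ U : Set ℂ, IsDomainFor U →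
      ((∀ (K : Type) [Field K] [NumberField K] (E : WeierstrassCurve K), E.IsElliptic →
          RankConjecture U E) ↔
        ∀ (F : Type) [Field F] [NumberField F] (E : WeierstrassCurve F), E.IsElliptic →
          (m ∣ Module.finrank ℚ F ∨ n ∣ Module.finrank ℚ F) →
          (∃ (N : Type) (_ : Field N) (_ : NumberField N) (_ : Algebra F N),
            IsGalois F N ∧ Hyperelementary Gal(N/F) ∧ X N (E.map (algebraMap F N))) →
          RankConjecture U E)) ∧
    -- 4. the same if the continuation is known
    ∀ X : ∀ (K : Type) [Field K] [NumberField K], WeierstrassCurve K → Prop, IsPotential X →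
      ∀ n : ℕ, 0 < n → ∀ U : Set ℂ, IsDomainFor U →
      ((∀ (K : Type) [Field K] [NumberField K] (E : WeierstrassCurve K), E.IsElliptic →
          RankConjecture U E) ↔
        (∀ (K : Type) [Field K] [NumberField K] (E : WeierstrassCurve K), E.IsElliptic →
          Continues U E) ∧
        ∀ (F : Type) [Field F] [NumberField F] (E : WeierstrassCurve F), E.IsElliptic →
          n ∣ Module.finrank ℚ F →
          (∃ (N : Type) (_ : Field N) (_ : NumberField N) (_ : Algebra F N),
            IsGalois F N ∧ IsCyclic Gal(N/F) ∧ X N (E.map (algebraMap F N))) →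
          RankConjecture U E) := by
  have h1 : ∀ (K M : Type) [Field K] [NumberField K] [Field M] [NumberField M] [Algebra K M]
      (m n : ℕ), 0 < m → 0 < n → Nat.Coprime m n →
      ∃ (L : Type) (_ : Field L) (_ : NumberField L) (_ : Algebra K L),
        IsGalois K L ∧ Nonempty (M →ₐ[K] L) ∧ ∃ S : Finset (IntermediateField K L),
        (∀ F ∈ S, (m ∣ Module.finrank K F ∨ n ∣ Module.finrank K F) ∧ Hyperelementary Gal(L/F)) ∧
        ∀ E : WeierstrassCurve K, E.IsElliptic → ∀ U : Set ℂ, IsDomainFor U →
          (∀ F ∈ S, RankConjecture U (E.map (algebraMap K F))) → RankConjecture U E := by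
    intro K M _ _ _ _ _ m n hm hn hmn
    obtain ⟨L, iF, iN, iA, iG, hM, S, hS, h⟩ := test_hyper K M hm hn hmn
    refine ⟨L, iF, iN, iA, iG, hM, S, hS, fun E hE U hU hF => ?_⟩
    rw [rank_iff hE hU.2.2]
    exact h E hE U hU.2.2 fun F hF' => (rank_iff inferInstance hU.2.2).1 (hF F hF')
  have h2 : ∀ (K M : Type) [Field K] [NumberField K] [Field M] [NumberField M] [Algebra K M]
      (n : ℕ), 0 < n →
      ∃ (L : Type) (_ : Field L) (_ : NumberField L) (_ : Algebra K L),
        IsGalois K L ∧ Nonempty (M →ₐ[K] L) ∧ ∃ S : Finset (IntermediateField K L),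
        (∀ F ∈ S, n ∣ Module.finrank K F ∧ IsCyclic Gal(L/F)) ∧ ∃ k : ℕ, 0 < k ∧
        ∀ E : WeierstrassCurve K, E.IsElliptic → ∀ U : Set ℂ, IsDomainFor U →
          (∀ F ∈ S, RankConjecture U (E.map (algebraMap K F))) →
            PowerConjecture k U E ∧ (Continues U E → RankConjecture U E) := by
    intro K M _ _ _ _ _ n hn
    obtain ⟨L, iF, iN, iA, iG, hM, k, S, hk, hS, h⟩ := test_cyclic K M hn
    refine ⟨L, iF, iN, iA, iG, hM, S, hS, k, Nat.pos_of_ne_zero hk, fun E hE U hU hF => ?_⟩
    have h3 := h E hE U hU.2.2 fun F hF' => (rank_iff inferInstance hU.2.2).1 (hF F hF')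
    refine ⟨(power_iff hE k hU.2.2).2 h3, fun hc => (rank_iff hE hU.2.2).2 ?_⟩
    exact h3.root hk ((dom_iff U).1 hU) hE ((continues_iff hE U).1 hc)
  refine ⟨h1, h2, fun X hX m n hm hn hmn U hU => ⟨fun h F _ _ E hE _ _ => h F E hE,
    fun h K _ _ E hE => ?_⟩, fun X hX n hn U hU => ⟨fun h => ⟨fun K _ _ E hE => ?_,
    fun F _ _ E hE _ _ => h F E hE⟩, fun h K _ _ E hE => ?_⟩⟩
  · obtain ⟨M, i1, i2, i3, hM⟩ := hX.2 K E hE
    obtain ⟨L, iF, iN, iA, iG, ⟨φ⟩, S, hS, h3⟩ := h1 K M m n hm hn hmn
    refine h3 E hE U hU fun F hF => ?_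
    refine h F _ inferInstance ?_ ⟨L, iF, iN, inferInstance, inferInstance, (hS F hF).2, ?_⟩
    · have e : Module.finrank ℚ F = Module.finrank ℚ K * Module.finrank K F :=
        (Module.finrank_mul_finrank ℚ K F).symm
      rw [e]
      exact (hS F hF).1.imp (fun h => Dvd.dvd.mul_left h _) fun h => Dvd.dvd.mul_left h _
    · let _ : Algebra M L := φ.toRingHom.toAlgebra
      have h4 := hX.1 M L _ hM
      rw [WeierstrassCurve.map_map] at h4 ⊢
      have e1 : (algebraMap M L).comp (algebraMap K M) = algebraMap K L := φ.comp_algebraMap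
      have e2 : (algebraMap F L).comp (algebraMap K F) = algebraMap K L :=
        (IsScalarTower.algebraMap_eq K F L).symm
      rw [e1] at h4
      rw [e2]
      exact h4
  · rw [continues_iff hE]
    exact ((rank_iff hE hU.2.2).1 (h K E hE)).cont
  · obtain ⟨M, i1, i2, i3, hM⟩ := hX.2 K E hE
    obtain ⟨L, iF, iN, iA, iG, ⟨φ⟩, S, hS, k, hk, h3⟩ := h2 K M n hn
    refine (h3 E hE U hU fun F hF => ?_).2 (h.1 K E hE)
    refine h.2 F _ inferInstance ?_ ⟨L, iF, iN, inferInstance, inferInstance, (hS F hF).2, ?_⟩
    · have e : Module.finrank ℚ F = Module.finrank ℚ K * Module.finrank K F :=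
        (Module.finrank_mul_finrank ℚ K F).symm
      rw [e]
      exact Dvd.dvd.mul_left (hS F hF).1 _
    · let _ : Algebra M L := φ.toRingHom.toAlgebra
      have h4 := hX.1 M L _ hM
      rw [WeierstrassCurve.map_map] at h4 ⊢
      have e1 : (algebraMap M L).comp (algebraMap K M) = algebraMap K L := φ.comp_algebraMap
      have e2 : (algebraMap F L).comp (algebraMap K F) = algebraMap K L :=
        (IsScalarTower.algebraMap_eq K F L).symm
      rw [e1] at h4
      rw [e2]
      exact h4

end Pool.Agent.Results.MP_ae0bd0_nt.HyperelementaryReduction
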